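import Pool.Agent.LLS.Final

set_option autoImplicit false

namespace Pool.Agent.Results.MP_35f602_nt.EveryPrime

/-- **The sign law for every prime `M = 4a² + 3b²` with `a, b` odd.** For the Lucas sequence
`V 0 = 2, V 1 = 4, V (n+2) = 4 V (n+1) - V n`:
`V ((M+1)/8) ≡ (2/a) 4^((M+1)/8) (mod M)`, equivalently the Legendre symbol of `V ((M+1)/8)`
modulo `M` is `(2/a)`. In particular, if `M + 1 = h 2^(n+3)`, the term `S n` of the sequence
`S 0 = V h, S (k+1) = S k ^ 2 - 2` has Legendre symbol `(2/a)`, and for Mersenne primes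
`2^p - 1 = 4a² + 27b²` one gets Lehmer's sign `ε_p = (2/a)`. -/
theorem result :
    (∀ M : ℕ, M.Prime → ∀ a b : ℤ, Odd a → Odd b → (M : ℤ) = 4 * a ^ 2 + 3 * b ^ 2 →
      ∀ V : ℕ → ℤ, V 0 = 2 → V 1 = 4 → (∀ n, V (n + 2) = 4 * V (n + 1) - V n) →
        8 ∣ M + 1 ∧
        V ((M + 1) / 8) ≡ jacobiSym 2 a.natAbs * 4 ^ ((M + 1) / 8) [ZMOD (M : ℤ)] ∧
        jacobiSym (V ((M + 1) / 8)) M = jacobiSym 2 a.natAbs ∧
        ∀ (h n : ℕ), M + 1 = h * 2 ^ (n + 3) → ∀ S : ℕ → ℤ, S 0 = V h →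
          (∀ k, S (k + 1) = S k ^ 2 - 2) →
            S n ≡ jacobiSym 2 a.natAbs * 4 ^ ((M + 1) / 8) [ZMOD (M : ℤ)] ∧
            jacobiSym (S n) M = jacobiSym 2 a.natAbs) ∧
    (∀ p : ℕ, 3 ≤ p → Nat.Prime (mersenne p) →
      ∀ S : ℕ → ℤ, S 1 = 4 → (∀ k : ℕ, 1 ≤ k → S (k + 1) = S k ^ 2 - 2) →
        ∀ a b : ℤ, (mersenne p : ℤ) = 4 * a ^ 2 + 27 * b ^ 2 →
          S (p - 2) ≡ jacobiSym 2 a.natAbs * 2 ^ ((p + 1) / 2) [ZMOD (mersenne p : ℤ)]) := by
  refine ⟨?_, fun p hp hM S hS1 hS a b hab => Pool.Agent.LLS.mersenne_case p hp hM S hS1 hS a b hab⟩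
  intro M hM a b ha hb hab V hV0 hV1 hV
  have : Fact M.Prime := ⟨hM⟩
  have hN : M = 4 * a.natAbs ^ 2 + 3 * b.natAbs ^ 2 := by
    zify
    rw [hab, sq_abs, sq_abs]
  have ha1 : a.natAbs % 2 = 1 := Nat.odd_iff.1 (Int.natAbs_odd.2 ha)
  have hb1 : b.natAbs % 2 = 1 := Nat.odd_iff.1 (Int.natAbs_odd.2 hb)
  obtain ⟨l, hl⟩ : ∃ l, a.natAbs = 2 * l + 1 := ⟨a.natAbs / 2, by omega⟩
  obtain ⟨d, hd⟩ : ∃ d, b.natAbs = 2 * d + 1 := ⟨b.natAbs / 2, by omega⟩
  have hM8 : M % 8 = 7 := by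
    obtain ⟨e, he⟩ := (Nat.even_mul_succ_self l).two_dvd
    obtain ⟨f, hf⟩ := (Nat.even_mul_succ_self d).two_dvd
    have : M = 8 * (4 * e + 3 * f) + 7 := by rw [hN, hl, hd]; nlinarith [he, hf]
    omega
  obtain ⟨w, hw⟩ : ∃ w, M + 1 = 8 * w := ⟨(M + 1) / 8, by omega⟩
  have hdiv : (M + 1) / 8 = w := by omega
  have hJ : jacobiSym 2 a.natAbs = if (2 * l + 1) % 8 = 1 ∨ (2 * l + 1) % 8 = 7 then 1 else -1 := by
    rw [jacobiSym.at_two (Nat.odd_iff.2 ha1), ZMod.χ₈_nat_eq_if_mod_eight, hl]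
    rw [if_neg (by omega)]
  have hJ2 : jacobiSym 2 a.natAbs = 1 ∨ jacobiSym 2 a.natAbs = -1 := by
    rw [hJ]; split_ifs <;> simp
  -- the values of the Lucas sequence
  have hVq : ∀ {K : Type} [Field K] (q : K), q ^ 2 = 3 → ∀ n : ℕ,
      ((V n : ℤ) : K) = (2 + q) ^ n + (2 - q) ^ n := by
    intro K _ q hq n
    have : ((V n : ℤ) : K) = (2 + q) ^ n + (2 - q) ^ n ∧
        ((V (n + 1) : ℤ) : K) = (2 + q) ^ (n + 1) + (2 - q) ^ (n + 1) := by
      induction n with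
      | zero => rw [hV0, hV1]; push_cast; constructor <;> ring
      | succ n ih =>
        refine ⟨ih.2, ?_⟩
        rw [hV n]
        push_cast
        rw [ih.1, ih.2]
        linear_combination -((2 + q) ^ n + (2 - q) ^ n) * hq
    exact this.1
  have hmain : V w ≡ jacobiSym 2 a.natAbs * 4 ^ w [ZMOD (M : ℤ)] := by
    by_cases hM7 : M = 7
    · have hw1 : w = 1 := by omega
      have hl0 : l = 0 := by
        rw [hl, hd] at hN
        nlinarith
      rw [hw1, hV1, hJ, hl0]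
      simp
    · obtain ⟨q, hq⟩ : ∃ q : AlgebraicClosure (ZMod M), q ^ 2 = 3 :=
        IsAlgClosed.exists_pow_nat_eq 3 (by norm_num)
      have : CharP (AlgebraicClosure (ZMod M)) M :=
        charP_of_injective_algebraMap
          (algebraMap (ZMod M) (AlgebraicClosure (ZMod M))).injective M
      have hpp : M = 4 * (2 * l + 1) ^ 2 + 3 * (2 * (d + 1) - 1) ^ 2 := by
        have e : 2 * (d + 1) - 1 = 2 * d + 1 := by omega
        rw [e, hN, hl, hd]
      have key := Pool.Agent.LLS.general M hM hM7 l (d + 1) (by omega) hpp hq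
      rw [hdiv] at key
      rw [← CharP.intCast_eq_intCast (AlgebraicClosure (ZMod M)) M, hVq q hq, key, hJ]
      push_cast
      rw [mul_comm]
  -- the Legendre symbol
  have hleg : ∀ z : ℤ, z ≡ jacobiSym 2 a.natAbs * 4 ^ w [ZMOD (M : ℤ)] →
      jacobiSym z M = jacobiSym 2 a.natAbs := by
    intro z hz
    have hM2 : (2 : ZMod M) ≠ 0 := by
      intro h
      have h' : ((2 : ℕ) : ZMod M) = 0 := by exact_mod_cast h
      rw [ZMod.natCast_eq_zero_iff] at h'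
      have := Nat.le_of_dvd (by norm_num) h'
      omega
    have h4 : jacobiSym (4 ^ w) M = 1 := by
      have e : (4 : ℤ) ^ w = (2 ^ w) ^ 2 := by rw [← pow_mul, mul_comm, pow_mul]; norm_num
      rw [e]
      apply jacobiSym.sq_one'
      have hcop : Nat.Coprime 2 M := by
        rw [Nat.coprime_two_left, Nat.odd_iff]; omega
      have := (Nat.Coprime.pow_left w hcop)
      rw [Int.gcd_eq_natAbs, Int.natAbs_pow]
      simpa using this
    rw [jacobiSym.mod_left' hz, jacobiSym.mul_left, h4, mul_one]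
    rcases hJ2 with h | h
    · rw [h]; simp
    · rw [h]
      rw [jacobiSym.at_neg_one (Nat.odd_iff.2 (by omega)), ZMod.χ₄_nat_three_mod_four (by omega)]
  rw [hdiv]
  refine ⟨⟨w, hw⟩, hmain, hleg _ hmain, ?_⟩
  intro h n hhn S hS0 hS
  have hw2 : w = h * 2 ^ n := by
    have : h * 2 ^ (n + 3) = 8 * (h * 2 ^ n) := by ring
    omega
  have hSV : ∀ k : ℕ, S k = V (h * 2 ^ k) := by
    obtain ⟨q, hq⟩ : ∃ q : AlgebraicClosure ℚ, q ^ 2 = 3 :=
      IsAlgClosed.exists_pow_nat_eq 3 (by norm_num)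
    have hη : (2 + q) * (2 - q) = 1 := by linear_combination -hq
    intro k
    induction k with
    | zero => simpa using hS0
    | succ k ih =>
      have e : ((S (k + 1) : ℤ) : AlgebraicClosure ℚ) = ((V (h * 2 ^ (k + 1)) : ℤ) : AlgebraicClosure ℚ) := by
        rw [hS k, ih]
        push_cast
        rw [hVq q hq, hVq q hq]
        have h1 : (2 + q) ^ (h * 2 ^ k) * (2 - q) ^ (h * 2 ^ k) = 1 := by rw [← mul_pow, hη, one_pow]
        have h2 : ∀ y : AlgebraicClosure ℚ, y ^ (h * 2 ^ (k + 1)) = (y ^ (h * 2 ^ k)) ^ 2 := by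
          intro y; rw [← pow_mul, pow_succ, mul_assoc]
        rw [h2, h2]
        linear_combination 2 * h1
      exact_mod_cast e
  rw [hSV n, ← hw2]
  exact ⟨hmain, hleg _ hmain⟩

end Pool.Agent.Results.MP_35f602_nt.EveryPrime
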